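import Mathlib

open Filter Topology

namespace Pool.Agent.MinExt

variable {𝕜 : Type*} [RCLike 𝕜] {E : Type*} [NormedAddCommGroup E] [NormedSpace 𝕜 E]

/-- Hahn-Banach in the form we need: a functional of norm at most one separating `d` from `Y`. -/
lemma exists_functional (Y : Submodule 𝕜 E) (d : E) (hd : ∀ y ∈ Y, (1 : ℝ) ≤ ‖d - y‖) :
    ∃ H : E →L[𝕜] 𝕜, ‖H‖ ≤ 1 ∧ H d = 1 ∧ ∀ y ∈ Y, H y = 0 := by
  obtain ⟨g, hg1, hg2⟩ := exists_dual_vector'' 𝕜 (Submodule.Quotient.mk d : E ⧸ Y)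
  set q : E ⧸ Y := Submodule.Quotient.mk d with hq
  have hq1 : (1 : ℝ) ≤ ‖q‖ := by
    by_contra hlt
    push Not at hlt
    obtain ⟨m, hm, hm'⟩ := Submodule.Quotient.norm_mk_lt (S := Y) q
      (ε := 1 - ‖q‖) (by linarith)
    have h1 : d - m ∈ Y := by
      rw [← Submodule.Quotient.eq]
      rw [hm]
    have h2 := hd _ h1
    simp only [sub_sub_cancel] at h2
    linarith
  have hq0 : (0 : ℝ) < ‖q‖ := by linarith
  let L : E →ₗ[𝕜] 𝕜 := (((‖q‖ : ℝ) : 𝕜)⁻¹) • (g.toLinearMap ∘ₗ Y.mkQ)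
  have hL : ∀ e, ‖L e‖ ≤ 1 * ‖e‖ := by
    intro e
    have h1 : ‖g (Submodule.Quotient.mk e : E ⧸ Y)‖ ≤ ‖e‖ := by
      calc ‖g (Submodule.Quotient.mk e : E ⧸ Y)‖ ≤ ‖g‖ * ‖(Submodule.Quotient.mk e : E ⧸ Y)‖ :=
            g.le_opNorm _
        _ ≤ 1 * ‖e‖ := by
            gcongr
            exact Submodule.Quotient.norm_mk_le Y e
        _ = ‖e‖ := one_mul _
    have h2 : ‖L e‖ = ‖q‖⁻¹ * ‖g (Submodule.Quotient.mk e : E ⧸ Y)‖ := by
      simp [L, norm_smul]
    rw [h2, one_mul]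
    calc ‖q‖⁻¹ * ‖g (Submodule.Quotient.mk e : E ⧸ Y)‖ ≤ 1 * ‖e‖ := by
          gcongr
          exact inv_le_one_of_one_le₀ hq1
      _ = ‖e‖ := one_mul _
  refine ⟨L.mkContinuous 1 hL, LinearMap.mkContinuous_norm_le _ zero_le_one _, ?_, ?_⟩
  · have : L d = (((‖q‖ : ℝ) : 𝕜)⁻¹) * g q := by simp [L, hq]
    rw [LinearMap.mkContinuous_apply, this, hg2]
    have : ((‖q‖ : ℝ) : 𝕜) ≠ 0 := by
      exact_mod_cast hq0.ne'
    exact inv_mul_cancel₀ this
  · intro y hy
    have h0 : (Submodule.Quotient.mk y : E ⧸ Y) = 0 := by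
      rwa [Submodule.Quotient.mk_eq_zero]
    simp [L, h0]

/-- A closed subspace and a point outside: there is a functional vanishing on the subspace and
equal to one at the point. -/
lemma exists_functional_of_notMem (Y : Submodule 𝕜 E) (hY : IsClosed (Y : Set E)) (d : E)
    (hd : d ∉ Y) : ∃ H : E →L[𝕜] 𝕜, H d = 1 ∧ ∀ y ∈ Y, H y = 0 := by
  have hpos : 0 < Metric.infDist d (Y : Set E) := by
    rw [← hY.notMem_iff_infDist_pos ⟨0, Y.zero_mem⟩]
    exact hd
  set r := Metric.infDist d (Y : Set E) with hr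
  have hr0 : ((r : ℝ) : 𝕜) ≠ 0 := by exact_mod_cast hpos.ne'
  obtain ⟨H, -, h1, h2⟩ := exists_functional Y (((r : ℝ) : 𝕜)⁻¹ • d) (by
    intro y hy
    have h3 : ((r : ℝ) : 𝕜)⁻¹ • d - y = ((r : ℝ) : 𝕜)⁻¹ • (d - ((r : ℝ) : 𝕜) • y) := by
      rw [smul_sub, smul_smul, inv_mul_cancel₀ hr0, one_smul]
    rw [h3, norm_smul]
    have h4 : r ≤ ‖d - ((r : ℝ) : 𝕜) • y‖ := by
      rw [← dist_eq_norm]
      exact Metric.infDist_le_dist_of_mem (Y.smul_mem _ hy)
    have h5 : ‖((r : ℝ) : 𝕜)⁻¹‖ = r⁻¹ := by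
      rw [norm_inv, RCLike.norm_ofReal, abs_of_pos hpos]
    rw [h5]
    calc (1 : ℝ) = r⁻¹ * r := (inv_mul_cancel₀ hpos.ne').symm
      _ ≤ _ := by gcongr)
  refine ⟨((r : ℝ) : 𝕜)⁻¹ • H, ?_, ?_⟩
  · have := h1
    rw [map_smul] at this
    simpa using this
  · intro y hy
    simp [h2 y hy]

/-- A bounded sequence of functionals tending to zero pointwise on `s` does so on its closure. -/
lemma tendsto_zero_closure (f : ℕ → E →L[𝕜] 𝕜) (D : ℝ) (hD : ∀ n, ‖f n‖ ≤ D) (s : Set E)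
    (hs : ∀ e ∈ s, Tendsto (fun n => f n e) atTop (𝓝 0)) :
    ∀ e ∈ closure s, Tendsto (fun n => f n e) atTop (𝓝 0) := by
  intro e he
  have hD0 : 0 ≤ D := (norm_nonneg _).trans (hD 0)
  rw [Metric.tendsto_atTop]
  intro ε hε
  obtain ⟨e', he', hdist⟩ := Metric.mem_closure_iff.1 he (ε / (2 * (D + 1))) (by positivity)
  obtain ⟨N, hN⟩ := (Metric.tendsto_atTop.1 (hs e' he')) (ε / 2) (by positivity)
  refine ⟨N, fun n hn => ?_⟩
  have h1 := hN n hn
  rw [dist_zero_right] at h1 ⊢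
  have h2 : f n e = f n e' + f n (e - e') := by rw [map_sub]; ring
  rw [h2]
  have h3 : ‖f n (e - e')‖ ≤ D * ‖e - e'‖ :=
    ((f n).le_opNorm _).trans (by gcongr; exact hD n)
  have h4 : D * ‖e - e'‖ ≤ ε / 2 := by
    rw [← dist_eq_norm]
    calc D * dist e e' ≤ (D + 1) * (ε / (2 * (D + 1))) := by
          apply mul_le_mul (by linarith) hdist.le dist_nonneg (by positivity)
      _ = ε / 2 := by field_simp
  calc ‖f n e' + f n (e - e')‖ ≤ ‖f n e'‖ + ‖f n (e - e')‖ := norm_add_le _ _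
    _ < ε := by linarith

/-- Veech's trick: a bounded sequence of functionals biorthogonal to `x` may be corrected to be
weak-star null. -/
lemma exists_wstar_null [TopologicalSpace.SeparableSpace E] (x : ℕ → E) (f : ℕ → E →L[𝕜] 𝕜)
    (D : ℝ) (hbi : ∀ n k, f n (x k) = if n = k then 1 else 0) (hD : ∀ n, ‖f n‖ ≤ D) :
    ∃ f' : ℕ → E →L[𝕜] 𝕜, (∀ n k, f' n (x k) = if n = k then 1 else 0) ∧
      (∀ n, ‖f' n‖ ≤ 2 * D) ∧ ∀ e, Tendsto (fun n => f' n e) atTop (𝓝 0) := by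
  classical
  have hD0 : 0 ≤ D := (norm_nonneg _).trans (hD 0)
  let a : ℕ → E := TopologicalSpace.denseSeq E
  let P : ℕ → ℕ → Prop := fun m n => ∃ h : E →L[𝕜] 𝕜, (∀ k, h (x k) = 0) ∧ ‖h‖ ≤ D ∧
    ∀ j < m, (m : ℝ) * ‖f n (a j) - h (a j)‖ ≤ 1
  have hP0 : ∀ n, P 0 n := fun n => ⟨0, by simp, by simpa using hD0, by simp⟩
  have hP : ∀ m, ∀ᶠ n in atTop, P m n := by
    intro m
    by_contra hcon
    rw [Filter.not_eventually] at hcon
    obtain ⟨φ, hφ, hφ'⟩ := Filter.extraction_of_frequently_atTop hcon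
    have hball : ∀ i, (StrongDual.toWeakDual (f (φ i))) ∈
        (WeakDual.toStrongDual ⁻¹' Metric.closedBall (0 : StrongDual 𝕜 E) D) := by
      intro i
      simp only [Set.mem_preimage, Metric.mem_closedBall, dist_zero_right]
      exact hD _
    obtain ⟨h, hh, ψ, hψ, hlim⟩ :=
      WeakDual.isSeqCompact_closedBall 𝕜 E (0 : StrongDual 𝕜 E) D hball
    set h' : E →L[𝕜] 𝕜 := WeakDual.toStrongDual h with hh'
    have hnorm : ‖h'‖ ≤ D := by
      simpa only [Set.mem_preimage, Metric.mem_closedBall, dist_zero_right] using hh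
    have hpt : ∀ e, Tendsto (fun i => f (φ (ψ i)) e) atTop (𝓝 (h' e)) := by
      intro e
      have := ((WeakDual.eval_continuous (𝕜 := 𝕜) (E := E) e).tendsto h).comp hlim
      exact this
    have hz : ∀ k, h' (x k) = 0 := by
      intro k
      refine tendsto_nhds_unique (hpt (x k)) ?_
      apply tendsto_const_nhds.congr'
      have : Tendsto (fun i => φ (ψ i)) atTop atTop := (hφ.comp hψ).tendsto_atTop
      filter_upwards [this.eventually_gt_atTop k] with i hi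
      rw [hbi, if_neg (by omega)]
    have hev : ∀ᶠ i in atTop, ∀ j < m, (m : ℝ) * ‖f (φ (ψ i)) (a j) - h' (a j)‖ ≤ 1 := by
      have : ∀ j ∈ Finset.range m, ∀ᶠ i in atTop,
          (m : ℝ) * ‖f (φ (ψ i)) (a j) - h' (a j)‖ ≤ 1 := by
        intro j _
        have h1 : Tendsto (fun i => (m : ℝ) * ‖f (φ (ψ i)) (a j) - h' (a j)‖) atTop (𝓝 0) := by
          have h2 := ((hpt (a j)).sub (tendsto_const_nhds (x := h' (a j)))).norm.const_mul (m : ℝ)
          simpa using h2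
        exact h1.eventually (ge_mem_nhds (by norm_num))
      have h2 := (Filter.eventually_all_finset (Finset.range m)).2 this
      filter_upwards [h2] with i hi j hj
      exact hi j (Finset.mem_range.2 hj)
    obtain ⟨i, hi⟩ := hev.exists
    exact hφ' (ψ i) ⟨h', hz, hnorm, hi⟩
  let M : ℕ → ℕ := fun n => Nat.findGreatest (fun m => P m n) n
  have hM : ∀ n, P (M n) n := fun n => Nat.findGreatest_spec (P := fun m => P m n)
    (Nat.zero_le n) (hP0 n)
  have hMt : Tendsto M atTop atTop := by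
    rw [Filter.tendsto_atTop]
    intro m
    filter_upwards [hP m, Filter.eventually_ge_atTop m] with n hn hmn
    exact Nat.le_findGreatest hmn hn
  choose h hx hn ha using hM
  refine ⟨fun n => f n - h n, ?_, ?_, ?_⟩
  · intro n k
    simp [hx n k, hbi n k]
  · intro n
    calc ‖f n - h n‖ ≤ ‖f n‖ + ‖h n‖ := norm_sub_le _ _
      _ ≤ 2 * D := by linarith [hD n, hn n]
  · have hbound : ∀ n, ‖f n - h n‖ ≤ 2 * D := fun n =>
      calc ‖f n - h n‖ ≤ ‖f n‖ + ‖h n‖ := norm_sub_le _ _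
        _ ≤ 2 * D := by linarith [hD n, hn n]
    have hden : ∀ e ∈ Set.range a, Tendsto (fun n => (f n - h n) e) atTop (𝓝 0) := by
      rintro _ ⟨j, rfl⟩
      rw [tendsto_zero_iff_norm_tendsto_zero]
      have hlim0 : Tendsto (fun n => (1 : ℝ) / (M n : ℝ)) atTop (𝓝 0) :=
        (tendsto_const_div_atTop_nhds_zero_nat 1).comp hMt
      refine squeeze_zero' (Filter.Eventually.of_forall fun n => norm_nonneg _) ?_ hlim0
      filter_upwards [hMt.eventually_gt_atTop j] with n hj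
      have h1 := ha n j hj
      have h2 : (0 : ℝ) < (M n : ℝ) := by
        have : 0 < M n := by omega
        exact_mod_cast this
      rw [le_div_iff₀ h2]
      calc ‖(f n - h n) (a j)‖ * (M n : ℝ) = (M n : ℝ) * ‖f n (a j) - h n (a j)‖ := by
            rw [mul_comm]; rfl
        _ ≤ 1 := h1
    have hcl := tendsto_zero_closure (fun n => f n - h n) (2 * D) hbound (Set.range a) hden
    intro e
    apply hcl
    have : DenseRange a := TopologicalSpace.denseRange_denseSeq E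
    exact this e

end Pool.Agent.MinExt
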