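import Pool.Agent.MinExt.Step

open Filter Topology

namespace Pool.Agent.MinExt

variable {𝕜 : Type*} [RCLike 𝕜] {E : Type*} [NormedAddCommGroup E] [NormedSpace 𝕜 E]

/-- The pairs added so far are biorthogonal: a member outside `S`. -/
lemma norm34 (v : E) : ‖((3 / 4 : ℝ) : 𝕜) • v‖ = 3 / 4 * ‖v‖ := by
  rw [norm_smul, RCLike.norm_ofReal]; norm_num

open Classical in
/-- Mixing one bad pair with fresh good pairs. -/
lemma mix {x : ℕ → E}
    (hinf : ∀ T : Finset E, (Z x ⊔ Submodule.span 𝕜 (T : Set E) : Submodule 𝕜 E) ≠ ⊤)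
    (k : ℕ) : ∀ (S : Finset (E × (E →L[𝕜] 𝕜))) (F : ℕ → E →L[𝕜] 𝕜) (N : ℕ) (A : ℝ)
      (b : E × (E →L[𝕜] 𝕜)) (L L' ε : ℝ), Inv x (insert b S) F N A → Rel b S → 0 < ε →
      0 ≤ L → 0 ≤ L' → ‖b.1‖ ≤ 40 + L → ‖b.2‖ ≤ 3 / 2 + L' →
      ∃ (T : Finset (E × (E →L[𝕜] 𝕜))) (F' : ℕ → E →L[𝕜] 𝕜) (N' : ℕ),
        Inv x (S ∪ T) F' N' (A + ε) ∧
        b.1 ∈ Submodule.span 𝕜 (Prod.fst '' (T : Set (E × (E →L[𝕜] 𝕜)))) ∧
        (∀ p ∈ T, ‖p.1‖ ≤ 40 + (3 / 4) ^ k * L ∧ ‖p.2‖ ≤ 3 / 2 + (2 / 3) ^ k * L') ∧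
        (∀ p ∈ T, p ∉ S) := by
  induction k with
  | zero =>
    intro S F N A b L L' ε hI hb hε hL hL' h1 h2
    refine ⟨{b}, F, N, ?_, ?_, ?_, ?_⟩
    · have : S ∪ {b} = insert b S := by
        ext p; simp
      rw [this]
      exact hI.mono (by linarith)
    · exact Submodule.subset_span ⟨b, by simp, rfl⟩
    · intro p hp
      rw [Finset.mem_singleton.1 hp]
      simpa using ⟨h1, h2⟩
    · intro p hp
      rw [Finset.mem_singleton.1 hp]
      exact hb.notMem
  | succ k ih =>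
    intro S F N A b L L' ε hI hb hε hL hL' h1 h2
    obtain ⟨g, F1, N1, hg, hgx, hg1, hg2, hI1⟩ := good_step hI hinf (ε / 3) (by positivity)
    have hbS : b ∈ insert b S := Finset.mem_insert_self _ _
    have hbg : b.2 g.1 = 0 := (hg.2 b hbS).1
    have hgb : g.2 b.1 = 0 := (hg.2 b hbS).2
    have hbb : b.2 b.1 = 1 := hb.1
    have hgg : g.2 g.1 = 1 := hg.1
    set vp : E × (E →L[𝕜] 𝕜) := (((3 / 4 : ℝ) : 𝕜) • b.1 + g.1,
      ((2 / 3 : ℝ) : 𝕜) • b.2 + ((1 / 2 : ℝ) : 𝕜) • g.2) with hvp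
    set vm : E × (E →L[𝕜] 𝕜) := (((3 / 4 : ℝ) : 𝕜) • b.1 - g.1,
      ((2 / 3 : ℝ) : 𝕜) • b.2 - ((1 / 2 : ℝ) : 𝕜) • g.2) with hvm
    have hbx : ∀ k, b.2 (x k) = 0 := hI.ann b hbS
    have e34 : ((2 / 3 : ℝ) : 𝕜) * ((3 / 4 : ℝ) : 𝕜) = ((1 / 2 : ℝ) : 𝕜) := by
      rw [← RCLike.ofReal_mul]; norm_num
    have e11 : ((1 / 2 : ℝ) : 𝕜) + ((1 / 2 : ℝ) : 𝕜) = 1 := by
      rw [← RCLike.ofReal_add]; norm_num
    have hpp : vp.2 vp.1 = 1 := by
      simp only [hvp, add_apply, smul_apply, map_add,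
        map_smul, hbb, hbg, hgb, hgg, smul_eq_mul, mul_one, mul_zero, add_zero, zero_add]
      linear_combination e34 + e11
    have hmm : vm.2 vm.1 = 1 := by
      simp only [hvm, sub_apply, smul_apply, map_sub,
        map_smul, hbb, hbg, hgb, hgg, smul_eq_mul, mul_one, mul_zero, sub_zero, zero_sub,
        sub_neg_eq_add]
      linear_combination e34 + e11
    have hpm : vp.2 vm.1 = 0 := by
      simp only [hvp, hvm, add_apply, smul_apply,
        map_sub, map_smul, hbb, hbg, hgb, hgg, smul_eq_mul, mul_one, mul_zero]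
      linear_combination e34
    have hmp : vm.2 vp.1 = 0 := by
      simp only [hvp, hvm, sub_apply, smul_apply,
        map_add, map_smul, hbb, hbg, hgb, hgg, smul_eq_mul, mul_one, mul_zero]
      linear_combination e34
    have hSp : ∀ p ∈ S, p.2 vp.1 = 0 ∧ vp.2 p.1 = 0 := by
      intro p hp
      have q1 := hb.2 p hp
      have q2 := hg.2 p (Finset.mem_insert_of_mem hp)
      simp [hvp, q1.1, q1.2, q2.1, q2.2]
    have hSm : ∀ p ∈ S, p.2 vm.1 = 0 ∧ vm.2 p.1 = 0 := by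
      intro p hp
      have q1 := hb.2 p hp
      have q2 := hg.2 p (Finset.mem_insert_of_mem hp)
      simp [hvm, q1.1, q1.2, q2.1, q2.2]
    have hBiS : Bi S := ⟨fun p hp => hI.bi.1 p (Finset.mem_insert_of_mem hp),
      fun p hp q hq => hI.bi.2 p (Finset.mem_insert_of_mem hp) q (Finset.mem_insert_of_mem hq)⟩
    have hrm : Rel vm S := ⟨hmm, hSm⟩
    have hrp : Rel vp (insert vm S) := by
      refine ⟨hpp, fun p hp => ?_⟩
      rcases Finset.mem_insert.1 hp with h | h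
      · rw [h]
        exact ⟨hmp, hpm⟩
      · exact hSp p h
    have hgI : g ∈ insert g (insert b S) := Finset.mem_insert_self _ _
    have hbI : b ∈ insert g (insert b S) := by simp
    have hI2 : Inv x (insert vp (insert vm S)) F1 N1 (A + ε / 3) := by
      apply hI1.replace
      · exact (hBiS.insert hrm).insert hrp
      · intro p hp k
        simp only [Finset.mem_insert] at hp
        rcases hp with h | h | h
        · rw [h]; simp [hvp, hbx k, hgx k]
        · rw [h]; simp [hvm, hbx k, hgx k]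
        · exact hI.ann p (Finset.mem_insert_of_mem h) k
      · intro n p hp
        have r1 := hI1.van n g hgI
        have r2 := hI1.van n b hbI
        simp only [Finset.mem_insert] at hp
        rcases hp with h | h | h
        · rw [h]; simp [hvp, r1, r2]
        · rw [h]; simp [hvm, r1, r2]
        · exact hI1.van n p (by simp [h])
    have n23 : ‖((2 / 3 : ℝ) : 𝕜) • b.2‖ = 2 / 3 * ‖b.2‖ := by
      rw [norm_smul, RCLike.norm_ofReal]; norm_num
    have n12 : ‖((1 / 2 : ℝ) : 𝕜) • g.2‖ = 1 / 2 * ‖g.2‖ := by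
      rw [norm_smul, RCLike.norm_ofReal]; norm_num
    have bp1 : ‖vp.1‖ ≤ 40 + 3 / 4 * L := by
      refine (norm_add_le _ _).trans ?_
      rw [norm34]; linarith
    have bm1 : ‖vm.1‖ ≤ 40 + 3 / 4 * L := by
      refine (norm_sub_le _ _).trans ?_
      rw [norm34]; linarith
    have bp2 : ‖vp.2‖ ≤ 3 / 2 + 2 / 3 * L' := by
      refine (norm_add_le _ _).trans ?_
      rw [n23, n12]; linarith
    have bm2 : ‖vm.2‖ ≤ 3 / 2 + 2 / 3 * L' := by
      refine (norm_sub_le _ _).trans ?_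
      rw [n23, n12]; linarith
    obtain ⟨T1, F2, N2, hI3, hs1, hb1, hd1⟩ := ih (insert vm S) F1 N1 (A + ε / 3) vp
      (3 / 4 * L) (2 / 3 * L') (ε / 3) hI2 hrp (by positivity) (by positivity) (by positivity)
      bp1 bp2
    have hset : insert vm S ∪ T1 = insert vm (S ∪ T1) := by
      ext p; simp
    rw [hset] at hI3
    have hrm2 : Rel vm (S ∪ T1) := by
      apply hI3.bi.rel (Finset.subset_insert _ _) (Finset.mem_insert_self _ _)
      intro hmem
      rcases Finset.mem_union.1 hmem with h | h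
      · exact hrm.notMem h
      · exact hd1 vm h (Finset.mem_insert_self _ _)
    obtain ⟨T2, F3, N3, hI4, hs2, hb2, hd2⟩ := ih (S ∪ T1) F2 N2 (A + ε / 3 + ε / 3) vm
      (3 / 4 * L) (2 / 3 * L') (ε / 3) hI3 hrm2 (by positivity) (by positivity) (by positivity)
      bm1 bm2
    refine ⟨T1 ∪ T2, F3, N3, ?_, ?_, ?_, ?_⟩
    · have e1 : S ∪ (T1 ∪ T2) = S ∪ T1 ∪ T2 := (Finset.union_assoc _ _ _).symm
      have e2 : A + ε = A + ε / 3 + ε / 3 + ε / 3 := by ring
      rw [e1, e2]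
      exact hI4
    · have e1 : b.1 = ((2 / 3 : ℝ) : 𝕜) • (vp.1 + vm.1) := by
        have : vp.1 + vm.1 = (((3 / 4 : ℝ) : 𝕜) + ((3 / 4 : ℝ) : 𝕜)) • b.1 := by
          rw [hvp, hvm, add_smul]
          simp only
          abel
        rw [this, smul_smul, mul_add, e34, e11, one_smul]
      rw [e1]
      apply Submodule.smul_mem
      apply Submodule.add_mem
      · refine Submodule.span_mono ?_ hs1
        apply Set.image_mono
        simp
      · refine Submodule.span_mono ?_ hs2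
        apply Set.image_mono
        simp
    · intro p hp
      have r1 : (3 / 4 : ℝ) ^ (k + 1) * L = (3 / 4) ^ k * (3 / 4 * L) := by ring
      have r2 : (2 / 3 : ℝ) ^ (k + 1) * L' = (2 / 3) ^ k * (2 / 3 * L') := by ring
      rw [r1, r2]
      rcases Finset.mem_union.1 hp with h | h
      · exact hb1 p h
      · exact hb2 p h
    · intro p hp hpS
      rcases Finset.mem_union.1 hp with h | h
      · exact hd1 p h (Finset.mem_insert_of_mem hpS)
      · exact hd2 p h (Finset.mem_union_left _ hpS)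

open Classical in
/-- One full step: absorb the vector `a`, keeping all pairs uniformly bounded. -/
lemma group_step {x : ℕ → E}
    (hinf : ∀ T : Finset E, (Z x ⊔ Submodule.span 𝕜 (T : Set E) : Submodule 𝕜 E) ≠ ⊤)
    {S : Finset (E × (E →L[𝕜] 𝕜))} {F : ℕ → E →L[𝕜] 𝕜} {N : ℕ}
    {A : ℝ} (h : Inv x S F N A) (hbd : ∀ p ∈ S, ‖p.1‖ ≤ 41 ∧ ‖p.2‖ ≤ 3) (a : E) (ε : ℝ)
    (hε : 0 < ε) :
    ∃ (S' : Finset (E × (E →L[𝕜] 𝕜))) (F' : ℕ → E →L[𝕜] 𝕜) (N' : ℕ), S ⊆ S' ∧
      Inv x S' F' N' (A + ε) ∧ (∀ p ∈ S', ‖p.1‖ ≤ 41 ∧ ‖p.2‖ ≤ 3) ∧ a ∈ Y x S' := by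
  by_cases ha : a ∈ Y x S
  · exact ⟨S, F, N, Finset.Subset.refl _, h.mono (by linarith), hbd, ha⟩
  · obtain ⟨b, F1, hb, hbx, hI, haY⟩ := bad_step h a ha (ε / 2) (by positivity)
    have hk : ∃ k : ℕ, (3 / 4 : ℝ) ^ k * ‖b.1‖ ≤ 1 ∧ (2 / 3 : ℝ) ^ k * ‖b.2‖ ≤ 1 := by
      have t1 : Tendsto (fun k : ℕ => (3 / 4 : ℝ) ^ k * ‖b.1‖) atTop (𝓝 0) := by
        have := (tendsto_pow_atTop_nhds_zero_of_lt_one (r := (3 / 4 : ℝ)) (by norm_num)
          (by norm_num)).mul_const ‖b.1‖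
        simpa using this
      have t2 : Tendsto (fun k : ℕ => (2 / 3 : ℝ) ^ k * ‖b.2‖) atTop (𝓝 0) := by
        have := (tendsto_pow_atTop_nhds_zero_of_lt_one (r := (2 / 3 : ℝ)) (by norm_num)
          (by norm_num)).mul_const ‖b.2‖
        simpa using this
      exact ((t1.eventually (ge_mem_nhds one_pos)).and
        (t2.eventually (ge_mem_nhds one_pos))).exists
    obtain ⟨k, hk1, hk2⟩ := hk
    obtain ⟨T, F2, N2, hI2, hs, hTb, hd⟩ := mix hinf k S F1 N (A + ε / 2) b ‖b.1‖ ‖b.2‖ (ε / 2)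
      hI hb (by positivity) (norm_nonneg _) (norm_nonneg _) (by linarith) (by linarith)
    refine ⟨S ∪ T, F2, N2, Finset.subset_union_left, ?_, ?_, ?_⟩
    · have e1 : A + ε = A + ε / 2 + ε / 2 := by ring
      rw [e1]; exact hI2
    · intro p hp
      rcases Finset.mem_union.1 hp with h1 | h1
      · exact hbd p h1
      · have := hTb p h1
        exact ⟨by linarith [this.1], by linarith [this.2]⟩
    · refine Y_mono x ?_ haY
      intro p hp
      rcases Finset.mem_insert.1 hp with h1 | h1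
      · rw [h1]
        refine Submodule.span_mono ?_ hs
        apply Set.image_mono
        simp
      · exact Submodule.subset_span ⟨p, by simp [h1], rfl⟩

/-- Limits of eventually constant functionals. -/
lemma exists_limit_functional [TopologicalSpace.SeparableSpace E] (g : ℕ → E →L[𝕜] 𝕜) (M : ℝ)
    (hM : ∀ i, ‖g i‖ ≤ M) :
    ∃ h : E →L[𝕜] 𝕜, ‖h‖ ≤ M ∧ ∀ (e : E) (c : 𝕜), (∀ᶠ i in atTop, g i e = c) → h e = c := by
  have hball : ∀ i, (StrongDual.toWeakDual (g i)) ∈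
      (WeakDual.toStrongDual ⁻¹' Metric.closedBall (0 : StrongDual 𝕜 E) M) := by
    intro i
    simp only [Set.mem_preimage, Metric.mem_closedBall, dist_zero_right]
    exact hM _
  obtain ⟨h, hh, ψ, hψ, hlim⟩ :=
    WeakDual.isSeqCompact_closedBall 𝕜 E (0 : StrongDual 𝕜 E) M hball
  refine ⟨WeakDual.toStrongDual h, ?_, ?_⟩
  · simpa only [Set.mem_preimage, Metric.mem_closedBall, dist_zero_right] using hh
  · intro e c hc
    have h1 : Tendsto (fun i => g (ψ i) e) atTop (𝓝 (WeakDual.toStrongDual h e)) :=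
      ((WeakDual.eval_continuous (𝕜 := 𝕜) (E := E) e).tendsto h).comp hlim
    refine tendsto_nhds_unique h1 ?_
    apply tendsto_const_nhds.congr'
    filter_upwards [hψ.tendsto_atTop.eventually hc] with i hi
    exact hi.symm

/-- Generic recursion producing a sequence from a step property. -/
lemma exists_rec {α : Type*} (P : ℕ → α → Prop) (R : ℕ → α → α → Prop) (a0 : α) (h0 : P 0 a0)
    (hs : ∀ i a, P i a → ∃ a', P (i + 1) a' ∧ R i a a') :
    ∃ s : ℕ → α, s 0 = a0 ∧ (∀ i, P i (s i)) ∧ ∀ i, R i (s i) (s (i + 1)) := by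
  classical
  choose! next h1 h2 using hs
  let s : ℕ → α := fun n => Nat.rec a0 (fun i a => next i a) n
  have hP : ∀ i, P i (s i) := by
    intro i
    induction i with
    | zero => exact h0
    | succ i ih => exact h1 i _ ih
  exact ⟨s, rfl, hP, fun i => h2 i _ (hP i)⟩

/-- The pairs produced and the corrected functionals, packaged. -/
theorem main [TopologicalSpace.SeparableSpace E] (x : ℕ → E) (f : ℕ → E →L[𝕜] 𝕜) (D : ℝ)
    (hbi : ∀ n k, f n (x k) = if n = k then 1 else 0) (hD : ∀ n, ‖f n‖ ≤ D) :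
    ∃ (P : Set (E × (E →L[𝕜] 𝕜))) (C' D' : ℝ) (h : ℕ → E →L[𝕜] 𝕜), P.Countable ∧
      (∀ n k, h n (x k) = if n = k then 1 else 0) ∧
      (∀ n, ∀ p ∈ P, h n p.1 = 0 ∧ p.2 (x n) = 0) ∧
      (∀ p ∈ P, p.2 p.1 = 1) ∧ (∀ p ∈ P, ∀ q ∈ P, p ≠ q → p.2 q.1 = 0) ∧
      (∀ n, ‖h n‖ ≤ D') ∧ (∀ p ∈ P, ‖p.1‖ ≤ C' ∧ ‖p.2‖ ≤ C') ∧
      (Submodule.span 𝕜 (Set.range x ∪ Prod.fst '' P)).topologicalClosure = ⊤ := by
  classical
  obtain ⟨F, hF1, hF2, hF3⟩ := exists_wstar_null x f D hbi hD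
  have hI0 : Inv x (∅ : Finset (E × (E →L[𝕜] 𝕜))) F 0 (2 * D) :=
    ⟨⟨by simp, by simp⟩, by simp, hF1, by simp, hF3, fun n _ => hF2 n, by simp⟩
  have hcl : ∀ (P : Set (E × (E →L[𝕜] 𝕜))) (S : Finset (E × (E →L[𝕜] 𝕜))),
      (∀ p ∈ S, p ∈ P) →
      Y x S ≤ (Submodule.span 𝕜 (Set.range x ∪ Prod.fst '' P)).topologicalClosure := by
    intro P S hSP
    apply sup_le
    · apply Submodule.topologicalClosure_mono
      exact Submodule.span_mono Set.subset_union_left
    · refine le_trans (Submodule.span_mono ?_) (Submodule.le_topologicalClosure _)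
      rintro _ ⟨p, hp, rfl⟩
      exact Or.inr ⟨p, hSP p hp, rfl⟩
  by_cases hfin : ∃ T : Finset E, (Z x ⊔ Submodule.span 𝕜 (T : Set E) : Submodule 𝕜 E) = ⊤
  · -- finite codimension
    obtain ⟨T, hT⟩ := hfin
    have hstep : ∀ T : Finset E, ∃ (S : Finset (E × (E →L[𝕜] 𝕜))) (F : ℕ → E →L[𝕜] 𝕜) (A : ℝ),
        Inv x S F 0 A ∧ ∀ t ∈ T, t ∈ Y x S := by
      intro T
      induction T using Finset.induction_on with
      | empty => exact ⟨∅, F, 2 * D, hI0, by simp⟩
      | insert a T _ ih =>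
        obtain ⟨S, F1, A, hI, hT⟩ := ih
        by_cases ha : a ∈ Y x S
        · refine ⟨S, F1, A, hI, ?_⟩
          intro t ht
          rcases Finset.mem_insert.1 ht with h1 | h1
          · rw [h1]; exact ha
          · exact hT t h1
        · obtain ⟨b, F2, hb, hbx, hI2, haY⟩ := bad_step hI a ha 1 one_pos
          refine ⟨insert b S, F2, A + 1, hI2, ?_⟩
          intro t ht
          rcases Finset.mem_insert.1 ht with h1 | h1
          · rw [h1]; exact haY
          · refine Y_mono x ?_ (hT t h1)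
            intro p hp
            exact Submodule.subset_span ⟨p, by simp [hp], rfl⟩
    obtain ⟨S, F1, A, hI, hTS⟩ := hstep T
    refine ⟨(S : Set (E × (E →L[𝕜] 𝕜))), ∑ p ∈ S, (‖p.1‖ + ‖p.2‖), A, F1,
      S.finite_toSet.countable, hI.dual, ?_, ?_, ?_, ?_, ?_, ?_⟩
    · intro n p hp
      exact ⟨hI.van n p hp, hI.ann p hp n⟩
    · intro p hp
      exact hI.bi.1 p hp
    · intro p hp q hq hpq
      exact hI.bi.2 p hp q hq hpq
    · intro n
      exact hI.bd1 n (Nat.zero_le _)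
    · intro p hp
      have h1 : ‖p.1‖ + ‖p.2‖ ≤ ∑ p ∈ S, (‖p.1‖ + ‖p.2‖) :=
        Finset.single_le_sum (f := fun p : E × (E →L[𝕜] 𝕜) => ‖p.1‖ + ‖p.2‖)
          (fun _ _ => by positivity) hp
      exact ⟨by linarith [norm_nonneg p.2], by linarith [norm_nonneg p.1]⟩
    · rw [eq_top_iff, ← hT]
      have hle := hcl (S : Set (E × (E →L[𝕜] 𝕜))) S (fun p hp => hp)
      refine le_trans (sup_le le_sup_left ?_) hle
      rw [Submodule.span_le]
      intro t ht
      exact hTS t ht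
  · -- infinite codimension
    push Not at hfin
    let a : ℕ → E := TopologicalSpace.denseSeq E
    let St := Finset (E × (E →L[𝕜] 𝕜)) × (ℕ → E →L[𝕜] 𝕜) × ℕ
    obtain ⟨s, -, hP, hR⟩ := exists_rec (α := St)
      (fun i s => Inv x s.1 s.2.1 s.2.2 (2 * D + (1 - (1 / 2) ^ i)) ∧
        ∀ p ∈ s.1, ‖p.1‖ ≤ 41 ∧ ‖p.2‖ ≤ 3)
      (fun i s s' => s.1 ⊆ s'.1 ∧ a i ∈ Y x s'.1) (∅, F, 0)
      ⟨by simpa using hI0, by simp⟩ (by
        rintro i ⟨S, F1, N⟩ ⟨hI, hb⟩
        obtain ⟨S', F', N', h1, h2, h3, h4⟩ := group_step hfin hI hb (a i) ((1 / 2) ^ (i + 1))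
          (by positivity)
        refine ⟨(S', F', N'), ⟨?_, h3⟩, h1, h4⟩
        have e : 2 * D + (1 - (1 / 2 : ℝ) ^ (i + 1)) =
            2 * D + (1 - (1 / 2) ^ i) + (1 / 2) ^ (i + 1) := by ring
        change Inv x S' F' N' (2 * D + (1 - (1 / 2 : ℝ) ^ (i + 1)))
        rw [e]; exact h2)
    have hmono : Monotone fun i => (s i).1 := monotone_nat_of_le_succ fun i => (hR i).1
    have hD0 : 0 ≤ D := (norm_nonneg _).trans (hD 0)
    have hbnd : ∀ n i, ‖(s i).2.1 n‖ ≤ 12 * (2 * D + 1) := by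
      intro n i
      have hA : 2 * D + (1 - (1 / 2 : ℝ) ^ i) ≤ 2 * D + 1 := by
        have : (0 : ℝ) ≤ (1 / 2) ^ i := by positivity
        linarith
      have hI := (hP i).1
      by_cases hn : n < (s i).2.2
      · have := hI.bd2 n hn
        linarith
      · have := hI.bd1 n (not_lt.1 hn)
        linarith
    choose h hh1 hh2 using fun n => exists_limit_functional (fun i => (s i).2.1 n) _ (hbnd n)
    refine ⟨⋃ i, ((s i).1 : Set (E × (E →L[𝕜] 𝕜))), 41, 12 * (2 * D + 1), h,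
      Set.countable_iUnion fun i => (s i).1.finite_toSet.countable, ?_, ?_, ?_, ?_, hh1, ?_, ?_⟩
    · intro n k
      exact hh2 n (x k) _ (Filter.Eventually.of_forall fun i => (hP i).1.dual n k)
    · intro n p hp
      obtain ⟨i, hi⟩ := Set.mem_iUnion.1 hp
      refine ⟨hh2 n p.1 0 ?_, (hP i).1.ann p hi n⟩
      filter_upwards [Filter.eventually_ge_atTop i] with j hj
      exact (hP j).1.van n p (hmono hj hi)
    · intro p hp
      obtain ⟨i, hi⟩ := Set.mem_iUnion.1 hp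
      exact (hP i).1.bi.1 p hi
    · intro p hp q hq hpq
      obtain ⟨i, hi⟩ := Set.mem_iUnion.1 hp
      obtain ⟨j, hj⟩ := Set.mem_iUnion.1 hq
      exact (hP (max i j)).1.bi.2 p (hmono (le_max_left i j) hi) q
        (hmono (le_max_right i j) hj) hpq
    · intro p hp
      obtain ⟨i, hi⟩ := Set.mem_iUnion.1 hp
      have := (hP i).2 p hi
      exact ⟨this.1, by linarith [this.2]⟩
    · set W := (Submodule.span 𝕜 (Set.range x ∪
        Prod.fst '' (⋃ i, ((s i).1 : Set (E × (E →L[𝕜] 𝕜)))))).topologicalClosure with hW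
      have hmem : ∀ i, a i ∈ W := by
        intro i
        refine hcl _ (s (i + 1)).1 ?_ (hR i).2
        intro p hp
        exact Set.mem_iUnion.2 ⟨i + 1, hp⟩
      have hWc : IsClosed (W : Set E) := Submodule.isClosed_topologicalClosure _
      have hden : DenseRange a := TopologicalSpace.denseRange_denseSeq E
      rw [eq_top_iff]
      intro e _
      have h1 : closure (Set.range a) ⊆ (W : Set E) := by
        apply closure_minimal _ hWc
        rintro _ ⟨i, rfl⟩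
        exact hmem i
      exact h1 (hden e)

end Pool.Agent.MinExt
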