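import Pool.Agent.MinExt.Main

/-!
The extension theorem with explicit constants in the case of infinite codimension, and in the
form of one sequence.
-/

set_option autoImplicit false

open Filter Topology

namespace Pool.Agent.MinExt

variable {𝕜 : Type*} [RCLike 𝕜] {E : Type*} [NormedAddCommGroup E] [NormedSpace 𝕜 E]

/-- The pairs produced and the corrected functionals: infinite codimension, explicit bounds. -/
theorem main_inf [TopologicalSpace.SeparableSpace E] (x : ℕ → E) (f : ℕ → E →L[𝕜] 𝕜) (D : ℝ)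
    (hbi : ∀ n k, f n (x k) = if n = k then 1 else 0) (hD : ∀ n, ‖f n‖ ≤ D)
    (hfin : ∀ T : Finset E, (Z x ⊔ Submodule.span 𝕜 (T : Set E) : Submodule 𝕜 E) ≠ ⊤) :
    ∃ (P : Set (E × (E →L[𝕜] 𝕜))) (h : ℕ → E →L[𝕜] 𝕜), P.Countable ∧
      (∀ n k, h n (x k) = if n = k then 1 else 0) ∧
      (∀ n, ∀ p ∈ P, h n p.1 = 0 ∧ p.2 (x n) = 0) ∧
      (∀ p ∈ P, p.2 p.1 = 1) ∧ (∀ p ∈ P, ∀ q ∈ P, p ≠ q → p.2 q.1 = 0) ∧
      (∀ n, ‖h n‖ ≤ 12 * (2 * D + 1)) ∧ (∀ p ∈ P, ‖p.1‖ ≤ 41 ∧ ‖p.2‖ ≤ 3) ∧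
      (Submodule.span 𝕜 (Set.range x ∪ Prod.fst '' P)).topologicalClosure = ⊤ := by
  classical
  obtain ⟨F, hF1, hF2, hF3⟩ := exists_wstar_null x f D hbi hD
  have hI0 : Inv x (∅ : Finset (E × (E →L[𝕜] 𝕜))) F 0 (2 * D) :=
    ⟨⟨by simp, by simp⟩, by simp, hF1, by simp, hF3, fun n _ => hF2 n, by simp⟩
  have hcl : ∀ (P : Set (E × (E →L[𝕜] 𝕜))) (S : Finset (E × (E →L[𝕜] 𝕜))),
      (∀ p ∈ S, p ∈ P) →
      Y x S ≤ (Submodule.span 𝕜 (Set.range x ∪ Prod.fst '' P)).topologicalClosure := by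
    intro P S hSP
    apply sup_le
    · apply Submodule.topologicalClosure_mono
      exact Submodule.span_mono Set.subset_union_left
    · refine le_trans (Submodule.span_mono ?_) (Submodule.le_topologicalClosure _)
      rintro _ ⟨p, hp, rfl⟩
      exact Or.inr ⟨p, hSP p hp, rfl⟩
  let a : ℕ → E := TopologicalSpace.denseSeq E
  let St := Finset (E × (E →L[𝕜] 𝕜)) × (ℕ → E →L[𝕜] 𝕜) × ℕ
  obtain ⟨s, -, hP, hR⟩ := exists_rec (α := St)
    (fun i s => Inv x s.1 s.2.1 s.2.2 (2 * D + (1 - (1 / 2) ^ i)) ∧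
      ∀ p ∈ s.1, ‖p.1‖ ≤ 41 ∧ ‖p.2‖ ≤ 3)
    (fun i s s' => s.1 ⊆ s'.1 ∧ a i ∈ Y x s'.1) (∅, F, 0)
    ⟨by simpa using hI0, by simp⟩ (by
      rintro i ⟨S, F1, N⟩ ⟨hI, hb⟩
      obtain ⟨S', F', N', h1, h2, h3, h4⟩ := group_step hfin hI hb (a i) ((1 / 2) ^ (i + 1))
        (by positivity)
      refine ⟨(S', F', N'), ⟨?_, h3⟩, h1, h4⟩
      have e : 2 * D + (1 - (1 / 2 : ℝ) ^ (i + 1)) =
          2 * D + (1 - (1 / 2) ^ i) + (1 / 2) ^ (i + 1) := by ring
      change Inv x S' F' N' (2 * D + (1 - (1 / 2 : ℝ) ^ (i + 1)))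
      rw [e]; exact h2)
  have hmono : Monotone fun i => (s i).1 := monotone_nat_of_le_succ fun i => (hR i).1
  have hD0 : 0 ≤ D := (norm_nonneg _).trans (hD 0)
  have hbnd : ∀ n i, ‖(s i).2.1 n‖ ≤ 12 * (2 * D + 1) := by
    intro n i
    have hA : 2 * D + (1 - (1 / 2 : ℝ) ^ i) ≤ 2 * D + 1 := by
      have : (0 : ℝ) ≤ (1 / 2) ^ i := by positivity
      linarith
    have hI := (hP i).1
    by_cases hn : n < (s i).2.2
    · have := hI.bd2 n hn
      linarith
    · have := hI.bd1 n (not_lt.1 hn)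
      linarith
  choose h hh1 hh2 using fun n => exists_limit_functional (fun i => (s i).2.1 n) _ (hbnd n)
  refine ⟨⋃ i, ((s i).1 : Set (E × (E →L[𝕜] 𝕜))), h,
    Set.countable_iUnion fun i => (s i).1.finite_toSet.countable, ?_, ?_, ?_, ?_, hh1, ?_, ?_⟩
  · intro n k
    exact hh2 n (x k) _ (Filter.Eventually.of_forall fun i => (hP i).1.dual n k)
  · intro n p hp
    obtain ⟨i, hi⟩ := Set.mem_iUnion.1 hp
    refine ⟨hh2 n p.1 0 ?_, (hP i).1.ann p hi n⟩
    filter_upwards [Filter.eventually_ge_atTop i] with j hj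
    exact (hP j).1.van n p (hmono hj hi)
  · intro p hp
    obtain ⟨i, hi⟩ := Set.mem_iUnion.1 hp
    exact (hP i).1.bi.1 p hi
  · intro p hp q hq hpq
    obtain ⟨i, hi⟩ := Set.mem_iUnion.1 hp
    obtain ⟨j, hj⟩ := Set.mem_iUnion.1 hq
    exact (hP (max i j)).1.bi.2 p (hmono (le_max_left i j) hi) q
      (hmono (le_max_right i j) hj) hpq
  · intro p hp
    obtain ⟨i, hi⟩ := Set.mem_iUnion.1 hp
    exact (hP i).2 p hi
  · set W := (Submodule.span 𝕜 (Set.range x ∪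
      Prod.fst '' (⋃ i, ((s i).1 : Set (E × (E →L[𝕜] 𝕜)))))).topologicalClosure with hW
    have hmem : ∀ i, a i ∈ W := by
      intro i
      refine hcl _ (s (i + 1)).1 ?_ (hR i).2
      intro p hp
      exact Set.mem_iUnion.2 ⟨i + 1, hp⟩
    have hWc : IsClosed (W : Set E) := Submodule.isClosed_topologicalClosure _
    have hden : DenseRange a := TopologicalSpace.denseRange_denseSeq E
    rw [eq_top_iff]
    intro e _
    have h1 : closure (Set.range a) ⊆ (W : Set E) := by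
      apply closure_minimal _ hWc
      rintro _ ⟨i, rfl⟩
      exact hmem i
    exact h1 (hden e)

/-- If finitely many vectors together with `[x]` span the space, then the quotient by `[x]` is
finite-dimensional. -/
lemma finite_quotient (x : ℕ → E) (T : Finset E)
    (hT : (Z x ⊔ Submodule.span 𝕜 (T : Set E) : Submodule 𝕜 E) = ⊤) :
    FiniteDimensional 𝕜 (E ⧸ (Z x : Submodule 𝕜 E)) := by
  have h1 : (Submodule.span 𝕜 (T : Set E)).map (Z x : Submodule 𝕜 E).mkQ = ⊤ := by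
    have h2 : (⊤ : Submodule 𝕜 E).map (Z x : Submodule 𝕜 E).mkQ = ⊤ := by
      rw [Submodule.map_top, Submodule.range_mkQ]
    rw [← hT, Submodule.map_sup] at h2
    have h3 : (Z x : Submodule 𝕜 E).map (Z x : Submodule 𝕜 E).mkQ = ⊥ :=
      Submodule.mkQ_map_self _
    rw [h3, bot_sup_eq] at h2
    exact h2
  have h4 : FiniteDimensional 𝕜 (Submodule.span 𝕜 (T : Set E)) :=
    FiniteDimensional.span_of_finite 𝕜 T.finite_toSet
  have h5 : (⊤ : Submodule 𝕜 (E ⧸ (Z x : Submodule 𝕜 E))).FG := by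
    rw [← h1]
    exact Submodule.FG.map _ (Submodule.fg_span T.finite_toSet)
  exact Module.Finite.of_fg_top h5

end Pool.Agent.MinExt
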