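import Pool.Agent.MinExt.Basic

open Filter Topology

namespace Pool.Agent.MinExt

variable {𝕜 : Type*} [RCLike 𝕜] {E : Type*} [NormedAddCommGroup E] [NormedSpace 𝕜 E]

/-- A finite set of pairs (vector, functional) is biorthogonal. -/
def Bi (S : Finset (E × (E →L[𝕜] 𝕜))) : Prop :=
  (∀ p ∈ S, p.2 p.1 = 1) ∧ ∀ p ∈ S, ∀ q ∈ S, p ≠ q → p.2 q.1 = 0

/-- The pair `b` is normalised and biorthogonal to all pairs of `S`. -/
def Rel (b : E × (E →L[𝕜] 𝕜)) (S : Finset (E × (E →L[𝕜] 𝕜))) : Prop :=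
  b.2 b.1 = 1 ∧ ∀ p ∈ S, p.2 b.1 = 0 ∧ b.2 p.1 = 0

lemma Rel.notMem {b : E × (E →L[𝕜] 𝕜)} {S : Finset (E × (E →L[𝕜] 𝕜))} (h : Rel b S) :
    b ∉ S := by
  intro hb
  have h1 := (h.2 b hb).1
  rw [h.1] at h1
  exact one_ne_zero h1

open Classical in
lemma Bi.insert {b : E × (E →L[𝕜] 𝕜)} {S : Finset (E × (E →L[𝕜] 𝕜))} (hS : Bi S)
    (h : Rel b S) : Bi (insert b S) := by
  constructor
  · intro p hp
    rcases Finset.mem_insert.1 hp with rfl | hp
    · exact h.1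
    · exact hS.1 p hp
  · intro p hp q hq hpq
    rcases Finset.mem_insert.1 hp with h1 | h1 <;> rcases Finset.mem_insert.1 hq with h2 | h2
    · exact absurd (h1.trans h2.symm) hpq
    · rw [h1]
      exact (h.2 q h2).2
    · rw [h2]
      exact (h.2 p h1).1
    · exact hS.2 p h1 q h2 hpq

lemma Bi.rel {S T : Finset (E × (E →L[𝕜] 𝕜))} (hT : Bi T) (hST : S ⊆ T)
    {b : E × (E →L[𝕜] 𝕜)} (hb : b ∈ T) (hbS : b ∉ S) : Rel b S := by
  refine ⟨hT.1 b hb, fun p hp => ⟨?_, ?_⟩⟩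
  · exact hT.2 p (hST hp) b hb (fun h => hbS (h ▸ hp))
  · exact hT.2 b hb p (hST hp) (fun h => hbS (h ▸ hp))

/-- The invariant carried along the construction. -/
structure Inv (x : ℕ → E) (S : Finset (E × (E →L[𝕜] 𝕜))) (F : ℕ → E →L[𝕜] 𝕜) (N : ℕ)
    (A : ℝ) : Prop where
  bi : Bi S
  ann : ∀ p ∈ S, ∀ k, p.2 (x k) = 0
  dual : ∀ n k, F n (x k) = if n = k then 1 else 0
  van : ∀ n, ∀ p ∈ S, F n p.1 = 0
  null : ∀ e, Tendsto (fun n => F n e) atTop (𝓝 0)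
  bd1 : ∀ n, N ≤ n → ‖F n‖ ≤ A
  bd2 : ∀ n, n < N → ‖F n‖ ≤ 12 * A

lemma Inv.nonneg {x : ℕ → E} {S : Finset (E × (E →L[𝕜] 𝕜))} {F : ℕ → E →L[𝕜] 𝕜} {N : ℕ}
    {A : ℝ} (h : Inv x S F N A) : 0 ≤ A := (norm_nonneg _).trans (h.bd1 N le_rfl)

lemma Inv.mono {x : ℕ → E} {S : Finset (E × (E →L[𝕜] 𝕜))} {F : ℕ → E →L[𝕜] 𝕜} {N : ℕ}
    {A A' : ℝ} (h : Inv x S F N A) (hA : A ≤ A') : Inv x S F N A' :=
  ⟨h.bi, h.ann, h.dual, h.van, h.null, fun n hn => (h.bd1 n hn).trans hA,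
    fun n hn => (h.bd2 n hn).trans (by linarith)⟩

lemma Inv.replace {x : ℕ → E} {S : Finset (E × (E →L[𝕜] 𝕜))} {F : ℕ → E →L[𝕜] 𝕜} {N : ℕ}
    {A : ℝ} (h : Inv x S F N A) {S' : Finset (E × (E →L[𝕜] 𝕜))} (h1 : Bi S')
    (h2 : ∀ p ∈ S', ∀ k, p.2 (x k) = 0) (h3 : ∀ n, ∀ p ∈ S', F n p.1 = 0) :
    Inv x S' F N A :=
  ⟨h1, h2, h.dual, h3, h.null, h.bd1, h.bd2⟩

open Classical in
lemma Inv.add {x : ℕ → E} {S : Finset (E × (E →L[𝕜] 𝕜))} {F : ℕ → E →L[𝕜] 𝕜} {N : ℕ}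
    {A : ℝ} (h : Inv x S F N A) (b : E × (E →L[𝕜] 𝕜)) (hb : Rel b S)
    (hbx : ∀ k, b.2 (x k) = 0) (N' : ℕ) (A' : ℝ)
    (h1 : ∀ n, N' ≤ n → ‖F n - F n b.1 • b.2‖ ≤ A')
    (h2 : ∀ n, n < N' → ‖F n - F n b.1 • b.2‖ ≤ 12 * A') :
    Inv x (insert b S) (fun n => F n - F n b.1 • b.2) N' A' := by
  refine ⟨h.bi.insert hb, ?_, ?_, ?_, ?_, h1, h2⟩
  · intro p hp k
    rcases Finset.mem_insert.1 hp with rfl | hp
    · exact hbx k
    · exact h.ann p hp k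
  · intro n k
    simp [hbx k, h.dual n k]
  · intro n p hp
    rcases Finset.mem_insert.1 hp with rfl | hp
    · simp [hb.1]
    · simp [h.van n p hp, (hb.2 p hp).2]
  · intro e
    have h3 := (h.null e).sub ((h.null b.1).mul_const (b.2 e))
    simpa using h3

/-- The closed span of the original sequence. -/
def Z (x : ℕ → E) : Submodule 𝕜 E := (Submodule.span 𝕜 (Set.range x)).topologicalClosure

/-- The closed span of the original sequence and of the vectors added so far. -/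
def Y (x : ℕ → E) (S : Finset (E × (E →L[𝕜] 𝕜))) : Submodule 𝕜 E :=
  Z x ⊔ Submodule.span 𝕜 (Prod.fst '' (S : Set (E × (E →L[𝕜] 𝕜))))

lemma isClosed_sup_span (x : ℕ → E) (T : Set E) (hT : T.Finite) :
    IsClosed ((Z x ⊔ Submodule.span 𝕜 T : Submodule 𝕜 E) : Set E) := by
  have : FiniteDimensional 𝕜 (Submodule.span 𝕜 T) := FiniteDimensional.span_of_finite 𝕜 hT
  exact Submodule.isClosed_sup_finiteDimensional _ _
    (Submodule.isClosed_topologicalClosure _)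

lemma isClosed_Y (x : ℕ → E) (S : Finset (E × (E →L[𝕜] 𝕜))) :
    IsClosed ((Y x S : Submodule 𝕜 E) : Set E) :=
  isClosed_sup_span x _ (S.finite_toSet.image _)

lemma mem_Y_x (x : ℕ → E) (S : Finset (E × (E →L[𝕜] 𝕜))) (k : ℕ) : x k ∈ Y x S :=
  (le_sup_left : Z x ≤ Y x S)
    (Submodule.le_topologicalClosure _ (Submodule.subset_span ⟨k, rfl⟩))

lemma mem_Y_fst (x : ℕ → E) (S : Finset (E × (E →L[𝕜] 𝕜))) {p : E × (E →L[𝕜] 𝕜)}
    (hp : p ∈ S) : p.1 ∈ Y x S :=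
  (le_sup_right : _ ≤ Y x S) (Submodule.subset_span ⟨p, hp, rfl⟩)

lemma Y_mono (x : ℕ → E) {S T : Finset (E × (E →L[𝕜] 𝕜))}
    (h : ∀ p ∈ S, p.1 ∈ Submodule.span 𝕜 (Prod.fst '' (T : Set (E × (E →L[𝕜] 𝕜))))) :
    Y x S ≤ Y x T := by
  apply sup_le le_sup_left
  refine le_trans ?_ le_sup_right
  rw [Submodule.span_le]
  rintro _ ⟨p, hp, rfl⟩
  exact h p hp

lemma proj_apply {S : Finset (E × (E →L[𝕜] 𝕜))} (hS : Bi S) (a : E)
    {q : E × (E →L[𝕜] 𝕜)} (hq : q ∈ S) :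
    q.2 (a - ∑ p ∈ S, p.2 a • p.1) = 0 := by
  classical
  rw [map_sub, map_sum]
  have : ∑ p ∈ S, q.2 (p.2 a • p.1) = q.2 a := by
    rw [Finset.sum_eq_single q]
    · simp [hS.1 q hq]
    · intro p hp hpq
      simp [hS.2 q hq p hp (Ne.symm hpq)]
    · intro h
      exact absurd hq h
  rw [this, sub_self]

lemma sum_mem_Y (x : ℕ → E) (S : Finset (E × (E →L[𝕜] 𝕜))) (a : E) :
    ∑ p ∈ S, p.2 a • p.1 ∈ Y x S :=
  Submodule.sum_mem _ fun p hp => Submodule.smul_mem _ _ (mem_Y_fst x S hp)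

open Classical in
/-- Adding an arbitrary vector, without norm control on it. -/
lemma bad_step {x : ℕ → E} {S : Finset (E × (E →L[𝕜] 𝕜))} {F : ℕ → E →L[𝕜] 𝕜} {N : ℕ}
    {A : ℝ} (h : Inv x S F N A) (a : E) (ha : a ∉ Y x S) (ε : ℝ) (hε : 0 < ε) :
    ∃ (b : E × (E →L[𝕜] 𝕜)) (F' : ℕ → E →L[𝕜] 𝕜), Rel b S ∧ (∀ k, b.2 (x k) = 0) ∧
      Inv x (insert b S) F' N (A + ε) ∧ a ∈ Y x (insert b S) := by
  set y : E := a - ∑ p ∈ S, p.2 a • p.1 with hy
  have hyY : y ∉ Y x S := by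
    intro hmem
    apply ha
    have : a = y + ∑ p ∈ S, p.2 a • p.1 := by rw [hy]; abel
    rw [this]
    exact (Y x S).add_mem hmem (sum_mem_Y x S a)
  obtain ⟨G, hG1, hG2⟩ := exists_functional_of_notMem (Y x S) (isClosed_Y x S) y hyY
  have hc : 0 < ‖G‖ + 1 := by positivity
  obtain ⟨m, hm⟩ := (Metric.tendsto_atTop.1 (h.null y)) (ε / (‖G‖ + 1)) (by positivity)
  set z : E := ∑ n ∈ Finset.range m, F n y • x n with hz
  have hGz : G z = 0 := by
    rw [hz, map_sum]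
    apply Finset.sum_eq_zero
    intro n _
    simp [hG2 _ (mem_Y_x x S n)]
  have hpz : ∀ p ∈ S, p.2 z = 0 := by
    intro p hp
    rw [hz, map_sum]
    apply Finset.sum_eq_zero
    intro n _
    simp [h.ann p hp n]
  have hFz : ∀ n, F n (y - z) = if n < m then 0 else F n y := by
    intro n
    rw [map_sub, hz, map_sum]
    have : ∑ k ∈ Finset.range m, F n (F k y • x k) =
        ∑ k ∈ Finset.range m, if n = k then F k y else 0 := by
      apply Finset.sum_congr rfl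
      intro k _
      rw [map_smul, h.dual n k]
      split_ifs <;> simp
    rw [this, Finset.sum_ite_eq]
    by_cases hn : n < m
    · simp [hn]
    · simp [hn]
  have hrel : Rel ((y - z, G) : E × (E →L[𝕜] 𝕜)) S := by
    refine ⟨?_, fun p hp => ⟨?_, ?_⟩⟩
    · change G (y - z) = 1
      rw [map_sub, hG1, hGz, sub_zero]
    · change p.2 (y - z) = 0
      rw [map_sub, hpz p hp, sub_zero, hy]
      exact proj_apply h.bi a hp
    · exact hG2 _ (mem_Y_fst x S hp)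
  have hsmall : ∀ n, ‖F n (y - z) • G‖ ≤ ε := by
    intro n
    rw [hFz n]
    split_ifs with hn
    · have h0 : (0 : 𝕜) • G = 0 := by
        ext v
        simp
      rw [h0, norm_zero]
      exact hε.le
    · rw [norm_smul]
      have h1 := hm n (not_lt.1 hn)
      rw [dist_zero_right] at h1
      calc ‖F n y‖ * ‖G‖ ≤ (ε / (‖G‖ + 1)) * (‖G‖ + 1) := by
            apply mul_le_mul h1.le (by linarith) (norm_nonneg _) (by positivity)
        _ = ε := by field_simp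
  have hxG : ∀ k, G (x k) = 0 := fun k => hG2 _ (mem_Y_x x S k)
  refine ⟨(y - z, G), _, hrel, hxG, h.add (y - z, G) hrel hxG N (A + ε) ?_ ?_, ?_⟩
  · intro n hn
    exact (norm_sub_le _ _).trans (add_le_add (h.bd1 n hn) (hsmall n))
  · intro n hn
    refine (norm_sub_le _ _).trans ((add_le_add (h.bd2 n hn) (hsmall n)).trans ?_)
    linarith
  · have h1 : a = (y - z) + (z + ∑ p ∈ S, p.2 a • p.1) := by rw [hy]; abel
    have hmono : Y x S ≤ Y x (insert ((y - z, G) : E × (E →L[𝕜] 𝕜)) S) := by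
      apply Y_mono
      intro p hp
      exact Submodule.subset_span ⟨p, by simp [hp], rfl⟩
    have h2 : (y - z) ∈ Y x (insert ((y - z, G) : E × (E →L[𝕜] 𝕜)) S) :=
      mem_Y_fst x _ (p := ((y - z, G) : E × (E →L[𝕜] 𝕜))) (Finset.mem_insert_self _ _)
    have h3 : z ∈ Y x S := by
      rw [hz]
      exact Submodule.sum_mem _ fun n _ => Submodule.smul_mem _ _ (mem_Y_x x S n)
    rw [h1]
    exact Submodule.add_mem _ h2 (hmono ((Y x S).add_mem h3 (sum_mem_Y x S a)))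

open Classical in
/-- Adding a fresh good pair. -/
lemma good_step {x : ℕ → E} {S : Finset (E × (E →L[𝕜] 𝕜))} {F : ℕ → E →L[𝕜] 𝕜} {N : ℕ}
    {A : ℝ} (h : Inv x S F N A)
    (hinf : ∀ T : Finset E, (Z x ⊔ Submodule.span 𝕜 (T : Set E) : Submodule 𝕜 E) ≠ ⊤)
    (ε : ℝ) (hε : 0 < ε) :
    ∃ (b : E × (E →L[𝕜] 𝕜)) (F' : ℕ → E →L[𝕜] 𝕜) (N' : ℕ), Rel b S ∧
      (∀ k, b.2 (x k) = 0) ∧ ‖b.1‖ ≤ 10 ∧ ‖b.2‖ ≤ 1 ∧
      Inv x (insert b S) F' N' (A + ε) := by
  -- a separated sequence modulo `Y`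
  obtain ⟨y, hy1, hy2⟩ := exists_seq_of_forall_finset_exists
    (fun y : E => ‖y‖ ≤ 2) (fun y y' : E => ∀ e ∈ Y x S, (1 : ℝ) ≤ ‖y' - y - e‖) (by
      intro s _
      set T : Finset E := s ∪ S.image Prod.fst with hT
      have hcl : IsClosed ((Z x ⊔ Submodule.span 𝕜 (T : Set E) : Submodule 𝕜 E) : Set E) :=
        isClosed_sup_span x _ T.finite_toSet
      have hex : ∃ v : E, v ∉ (Z x ⊔ Submodule.span 𝕜 (T : Set E) : Submodule 𝕜 E) := by
        by_contra hcon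
        push Not at hcon
        exact hinf T (Submodule.eq_top_iff'.2 hcon)
      have hc : 1 < ‖(((3 / 2 : ℝ)) : 𝕜)‖ := by
        rw [RCLike.norm_ofReal]; norm_num
      have hR : ‖(((3 / 2 : ℝ)) : 𝕜)‖ < 2 := by
        rw [RCLike.norm_ofReal]; norm_num
      obtain ⟨v, hv1, hv2⟩ := riesz_lemma_of_norm_lt hc hR hcl hex
      refine ⟨v, hv1, fun w hw e he => ?_⟩
      rw [sub_sub]
      apply hv2
      apply Submodule.add_mem
      · exact (le_sup_right : _ ≤ (Z x ⊔ Submodule.span 𝕜 (T : Set E) : Submodule 𝕜 E))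
          (Submodule.subset_span (by simp [hT, hw]))
      · have hle : Y x S ≤ (Z x ⊔ Submodule.span 𝕜 (T : Set E) : Submodule 𝕜 E) := by
          apply sup_le_sup_left
          apply Submodule.span_mono
          rintro _ ⟨p, hp, rfl⟩
          rw [hT]
          simp only [Finset.coe_union, Set.mem_union, Finset.mem_coe, Finset.mem_image]
          exact Or.inr ⟨p, hp, rfl⟩
        exact hle he)
  -- finitely many functionals
  let Λ : E →L[𝕜] ((Fin N → 𝕜) × (S → 𝕜)) :=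
    (ContinuousLinearMap.pi fun n : Fin N => F n).prod
      (ContinuousLinearMap.pi fun p : S => p.1.2)
  set B : ℝ := 1 + ∑ p ∈ S, ‖p.1‖ with hB
  have hB1 : 1 ≤ B := by
    have : 0 ≤ ∑ p ∈ S, ‖p.1‖ := Finset.sum_nonneg fun _ _ => norm_nonneg _
    linarith
  have hBpos : 0 < B := by linarith
  set η : ℝ := min ε 1 / B with hη
  have hηpos : 0 < η := by
    have : 0 < min ε 1 := lt_min hε one_pos
    positivity
  have hηε : η ≤ ε := by
    rw [hη, div_le_iff₀ hBpos]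
    calc min ε 1 ≤ ε := min_le_left _ _
      _ ≤ ε * B := by nlinarith
  have hηB : η * B ≤ 1 := by
    rw [hη, div_mul_cancel₀ _ hBpos.ne']
    exact min_le_right _ _
  have hbdd : Bornology.IsBounded (Metric.closedBall (0 : (Fin N → 𝕜) × (S → 𝕜)) (‖Λ‖ * 2)) :=
    Metric.isBounded_closedBall
  obtain ⟨c, -, φ, hφ, hlim⟩ := tendsto_subseq_of_bounded hbdd (x := fun m => Λ (y m)) (by
    intro m
    rw [Metric.mem_closedBall, dist_zero_right]
    exact (Λ.le_opNorm _).trans (by gcongr; exact hy1 m))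
  obtain ⟨n0, hn0⟩ := (Metric.cauchySeq_iff.1 hlim.cauchySeq) η hηpos
  have hlt : φ n0 < φ (n0 + 1) := hφ (Nat.lt_succ_self _)
  set d : E := y (φ (n0 + 1)) - y (φ n0) with hd
  have hΛd : ‖Λ d‖ ≤ η := by
    have := hn0 (n0 + 1) (Nat.le_succ _) n0 le_rfl
    rw [dist_eq_norm] at this
    simp only [Function.comp] at this
    rw [hd, map_sub]
    exact this.le
  have hFd : ∀ n, n < N → ‖F n d‖ ≤ η := by
    intro n hn
    have h1 : ‖(Λ d).1 ⟨n, hn⟩‖ ≤ ‖(Λ d).1‖ := norm_le_pi_norm _ _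
    have h2 : ‖(Λ d).1‖ ≤ ‖Λ d‖ := norm_fst_le _
    exact (h1.trans h2).trans hΛd
  have hpd : ∀ p ∈ S, ‖p.2 d‖ ≤ η := by
    intro p hp
    have h1 : ‖(Λ d).2 ⟨p, hp⟩‖ ≤ ‖(Λ d).2‖ := norm_le_pi_norm _ _
    have h2 : ‖(Λ d).2‖ ≤ ‖Λ d‖ := norm_snd_le _
    exact (h1.trans h2).trans hΛd
  have hdn : ‖d‖ ≤ 4 := by
    rw [hd]
    exact (norm_sub_le _ _).trans (by linarith [hy1 (φ (n0 + 1)), hy1 (φ n0)])
  have hdY : ∀ e ∈ Y x S, (1 : ℝ) ≤ ‖d - e‖ := hy2 _ _ hlt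
  set u : E := d - ∑ p ∈ S, p.2 d • p.1 with hu
  have huY : ∀ e ∈ Y x S, (1 : ℝ) ≤ ‖u - e‖ := by
    intro e he
    have : u - e = d - (∑ p ∈ S, p.2 d • p.1 + e) := by rw [hu]; abel
    rw [this]
    exact hdY _ ((Y x S).add_mem (sum_mem_Y x S d) he)
  have hun : ‖u‖ ≤ 5 := by
    have h1 : ‖∑ p ∈ S, p.2 d • p.1‖ ≤ η * ∑ p ∈ S, ‖p.1‖ := by
      refine (norm_sum_le _ _).trans ?_
      rw [Finset.mul_sum]
      apply Finset.sum_le_sum
      intro p hp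
      rw [norm_smul]
      exact mul_le_mul_of_nonneg_right (hpd p hp) (norm_nonneg _)
    have h2 : η * ∑ p ∈ S, ‖p.1‖ ≤ 1 := by
      refine le_trans ?_ hηB
      apply mul_le_mul_of_nonneg_left _ hηpos.le
      rw [hB]; linarith
    rw [hu]
    exact (norm_sub_le _ _).trans (by linarith)
  obtain ⟨H, hH1, hH2, hH3⟩ := exists_functional (Y x S) u huY
  have hFu : ∀ n, F n u = F n d := by
    intro n
    rw [hu, map_sub, map_sum]
    rw [Finset.sum_eq_zero, sub_zero]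
    intro p hp
    simp [h.van n p hp]
  have hrel : Rel ((u, H) : E × (E →L[𝕜] 𝕜)) S := by
    refine ⟨hH2, fun p hp => ⟨?_, hH3 _ (mem_Y_fst x S hp)⟩⟩
    change p.2 u = 0
    rw [hu]
    exact proj_apply h.bi d hp
  have hxH : ∀ k, H (x k) = 0 := fun k => hH3 _ (mem_Y_x x S k)
  obtain ⟨N1, hN1⟩ := (Metric.tendsto_atTop.1 (h.null u)) ε hε
  have hA := h.nonneg
  have hs : ∀ n, ‖F n u • H‖ ≤ ‖F n u‖ := by
    intro n
    rw [norm_smul]
    calc ‖F n u‖ * ‖H‖ ≤ ‖F n u‖ * 1 := by gcongr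
      _ = ‖F n u‖ := mul_one _
  refine ⟨(u, H), _, max N N1, hrel, hxH, ?_, hH1, h.add (u, H) hrel hxH (max N N1) (A + ε) ?_ ?_⟩
  · change ‖u‖ ≤ 10
    linarith
  · intro n hn
    have h1 := hN1 n ((le_max_right _ _).trans hn)
    rw [dist_zero_right] at h1
    refine (norm_sub_le _ _).trans ?_
    have h2 := h.bd1 n ((le_max_left _ _).trans hn)
    have h3 := hs n
    linarith
  · intro n hn
    refine (norm_sub_le _ _).trans ?_
    by_cases hnN : n < N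
    · have h2 := h.bd2 n hnN
      have h3 : ‖F n u • H‖ ≤ ε := by
        refine (hs n).trans ?_
        rw [hFu n]
        exact (hFd n hnN).trans hηε
      linarith
    · have h2 := h.bd1 n (not_lt.1 hnN)
      have h3 : ‖F n u • H‖ ≤ 5 * A := by
        refine (hs n).trans (((F n).le_opNorm u).trans ?_)
        calc ‖F n‖ * ‖u‖ ≤ A * 5 := mul_le_mul h2 hun (norm_nonneg _) hA
          _ = 5 * A := mul_comm _ _
      linarith

end Pool.Agent.MinExt
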